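import Mathlib
import Pool.Agent.Lib_MP_7ba156_nt.Main

set_option autoImplicit false

namespace Pool.Agent.Results.MP_c09310_nt.EmptyRows

/-- Row `n` of the triangular arrangement, the interval `(n (n - 1) / 2, n (n + 1) / 2]`, contains
no generalised prime `f p` (`p` prime). For `f n = n` it says that row `n` contains no prime. -/
def EmptyRow (f : ℕ →*₀ ℝ) (n : ℕ) : Prop :=
  ∀ p : ℕ, p.Prime → ¬ ((n : ℝ) * (n - 1) / 2 < f p ∧ f p ≤ (n : ℝ) * (n + 1) / 2)

/-- The system with the generalised primes `f p`, `p` prime, and the generalised integers `f n`,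
`n > 0`, is as close to the primes and the integers as Riemann's hypothesis can see: up to
`C √x / log x` for the primes, up to `x ^ (1 / 2 + ε)` for the integers, and its zeta function is
that of Riemann up to a factor which is bounded from above and below in every half plane
`re s ≥ 1 / 2 + ε`. -/
structure Close (C : ℝ) (f : ℕ →*₀ ℝ) : Prop where
  moved : ∀ p : ℕ, p.Prime → 1 < f p ∧ |f p - p| ≤ C * Real.sqrt p
  finite : ∀ x : ℝ, {n : ℕ | f n ≤ x}.Finite
  primes : ∀ x : ℝ, 2 ≤ x → |(({p : ℕ | p.Prime ∧ f p ≤ x} : Set ℕ).ncard : ℝ) -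
    ({p : ℕ | p.Prime ∧ (p : ℝ) ≤ x} : Set ℕ).ncard| ≤ C * Real.sqrt x / Real.log x
  integers : ∀ ε : ℝ, 0 < ε → ∃ B : ℝ, ∀ x : ℝ, 1 ≤ x →
    |(({n : ℕ | 0 < n ∧ f n ≤ x} : Set ℕ).ncard : ℝ) - x| ≤ B * x ^ ((1 / 2 : ℝ) + ε)
  zeta : ∃ D : ℂ → ℂ, DifferentiableOn ℂ D {s | 1 / 2 < s.re} ∧
    (∀ ε : ℝ, 0 < ε → ∃ B : ℝ, 0 < B ∧ ∀ s : ℂ, 1 / 2 + ε ≤ s.re → 1 / B ≤ ‖D s‖ ∧ ‖D s‖ ≤ B) ∧
    ∀ s : ℂ, 1 < s.re → HasSum (fun n : ℕ => ((f n : ℝ) : ℂ) ^ (-s)) (riemannZeta s * D s)

/-- the bound for the number of the moved primes -/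
noncomputable def bd (K : ℝ) (x : ℝ) : ℝ := 1200 * K * (Real.sqrt x / Real.log (x + 8))

theorem log_ge_two {x : ℝ} (hx : 2 ≤ x) : 2 ≤ Real.log (x + 8) := by
  rw [Real.le_log_iff_exp_le (by linarith)]
  have h1 : Real.exp 2 = Real.exp 1 * Real.exp 1 := by
    rw [← Real.exp_add]
    norm_num
  have h2 := Real.exp_one_lt_d9
  have h3 := Real.exp_pos 1
  rw [h1]
  nlinarith

theorem bd_mono {K : ℝ} (hK : 1 ≤ K) : MonotoneOn (bd K) (Set.Ici 2) := by
  intro x hx y hy hxy
  have hx2 : (2 : ℝ) ≤ x := hx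
  have hy2 : (2 : ℝ) ≤ y := hy
  unfold bd
  refine mul_le_mul_of_nonneg_left ?_ (by linarith)
  have hlx := log_ge_two hx2
  have hly := log_ge_two hy2
  have hx0 : 0 < x := by linarith
  have hsx : 0 < Real.sqrt x := Real.sqrt_pos.2 hx0
  -- put `y = s² x`
  set s := Real.sqrt (y / x) with hs
  have hyx : 1 ≤ y / x := (one_le_div hx0).2 hxy
  have hs1 : 1 ≤ s := by
    rw [hs, Real.one_le_sqrt]
    exact hyx
  have hss : s * s = y / x := Real.mul_self_sqrt (by linarith)
  have hy' : y = s * s * x := by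
    rw [hss]
    field_simp
  have hsy : Real.sqrt y = s * Real.sqrt x := by
    rw [hy', Real.sqrt_mul (by positivity), Real.sqrt_mul_self (by linarith)]
  have hlog : Real.log (y + 8) ≤ Real.log (x + 8) + 2 * Real.log s := by
    have h1 : Real.log (x + 8) + 2 * Real.log s = Real.log ((x + 8) * (s * s)) := by
      rw [Real.log_mul (by linarith) (by positivity), Real.log_mul (by linarith) (by linarith)]
      ring
    rw [h1]
    refine Real.log_le_log (by linarith) ?_
    nlinarith
  have hlogs : Real.log s ≤ s - 1 := Real.log_le_sub_one_of_pos (by linarith)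
  rw [div_le_div_iff₀ (by linarith) (by linarith), hsy]
  have h5 : Real.log (y + 8) ≤ s * Real.log (x + 8) := by nlinarith
  nlinarith

theorem bd_ge_one {K : ℝ} (hK : 1 ≤ K) (x : ℝ) (hx : 2 ≤ x) : 1 ≤ bd K x := by
  have h1 := bd_mono hK (Set.mem_Ici.2 le_rfl) (Set.mem_Ici.2 hx) hx
  refine le_trans ?_ h1
  unfold bd
  have h2 : Real.log (2 + 8) ≤ 10 := by
    have := Real.log_le_sub_one_of_pos (show (0 : ℝ) < 2 + 8 by norm_num)
    linarith
  have h3 := log_ge_two (le_refl 2)
  have h4 : 1 ≤ Real.sqrt 2 := by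
    rw [Real.one_le_sqrt]
    norm_num
  have h5 : 1 / 10 ≤ Real.sqrt 2 / Real.log (2 + 8) := by
    rw [div_le_div_iff₀ (by norm_num) (by linarith)]
    linarith
  nlinarith

theorem bd_le {K : ℝ} (hK : 1 ≤ K) (x : ℝ) (hx : 2 ≤ x) :
    bd K x ≤ 1200 * K * Real.sqrt x / Real.log x := by
  unfold bd
  rw [mul_div_assoc]
  refine mul_le_mul_of_nonneg_left ?_ (by linarith)
  have h1 : 0 < Real.log x := Real.log_pos (by linarith)
  exact div_le_div_of_nonneg_left (Real.sqrt_nonneg _) h1
    (Real.log_le_log (by linarith) (by linarith))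

theorem bd_le_sqrt {K : ℝ} (hK : 1 ≤ K) (x : ℝ) (hx : 2 ≤ x) :
    bd K x ≤ 1200 * K * Real.sqrt x := by
  unfold bd
  refine mul_le_mul_of_nonneg_left ?_ (by linarith)
  have h1 := log_ge_two hx
  exact div_le_self (Real.sqrt_nonneg _) (by linarith)

/-- **Generalised primes with empty rows.** For every `K` there are generalised primes as close to
the primes as Riemann's hypothesis can see (number of generalised primes `≤ x` equal to `π(x)` up
to `O(√x / log x)`, generalised integers `x + O(x ^ (1 / 2 + ε))`, the same zeta function in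
`re s > 1 / 2` up to a factor bounded from above and from below) such that there are infinitely
many blocks of `K` consecutive rows of the triangular arrangement without a generalised prime. -/
theorem result (K : ℕ) (hK : 1 ≤ K) :
    ∃ f : ℕ →*₀ ℝ, Close (1200 * K) f ∧
      ∀ N : ℕ, ∃ n : ℕ, N ≤ n ∧ ∀ i < K, EmptyRow f (n + i) := by
  have hK' : (1 : ℝ) ≤ K := by exact_mod_cast hK
  obtain ⟨f, h1, h2, h3, h4, h5, h6⟩ := BG.main (1 / 2) (by norm_num) (by norm_num) (bd K)
    (bd_mono hK') (bd_ge_one hK') (by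
      intro ε hε
      refine ⟨1200 * K, fun x hx => (bd_le_sqrt hK' x hx).trans ?_⟩
      refine mul_le_mul_of_nonneg_left ?_ (by linarith)
      rw [Real.sqrt_eq_rpow]
      exact Real.rpow_le_rpow_of_exponent_le (by linarith) (by linarith))
  refine ⟨f, ⟨?_, h2, ?_, h4, h5⟩, ?_⟩
  · intro p hp
    refine ⟨(h1 p hp).1, (h1 p hp).2.trans ?_⟩
    have hp2 : (2 : ℝ) ≤ p := by exact_mod_cast hp.two_le
    have hl : 0 < Real.log p := Real.log_pos (by linarith)
    have := bd_le hK' p hp2
    calc bd K p * Real.log p ≤ 1200 * K * Real.sqrt p / Real.log p * Real.log p :=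
          mul_le_mul_of_nonneg_right this hl.le
      _ = 1200 * K * Real.sqrt p := by field_simp
  · intro x hx
    exact (h3 x hx).trans (bd_le hK' x hx)
  · intro N
    obtain ⟨p, q, hp, hq, hY, hpq, hgap, hr⟩ :=
      h6 (max (512 + (100 * K : ℝ) ^ 2) ((N : ℝ) ^ 2 + 1))
    set P := f p with hP
    set Q := f q with hQ
    have hP1 : 512 + (100 * (K : ℝ)) ^ 2 ≤ P := (le_max_left _ _).trans hY
    have hP2 : (N : ℝ) ^ 2 + 1 ≤ P := (le_max_right _ _).trans hY
    have hP512 : (512 : ℝ) ≤ P := by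
      have : (0 : ℝ) ≤ (100 * (K : ℝ)) ^ 2 := by positivity
      linarith
    have hP0 : 0 < P := by linarith
    -- the gap is longer than `3.6 K √P`
    have hlog : 9 / 10 * Real.log (P + 8) ≤ Real.log P := by
      have h7 : Real.log (P + 8) ≤ Real.log P + 8 / P := by
        have : P + 8 = P * (1 + 8 / P) := by field_simp
        rw [this, Real.log_mul (by linarith) (by positivity)]
        have := Real.log_le_sub_one_of_pos (show 0 < 1 + 8 / P by positivity)
        linarith
      have h8 : 8 / P ≤ 1 / 64 := by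
        rw [div_le_div_iff₀ hP0 (by norm_num)]
        linarith
      have h9 : 2 ≤ Real.log (P + 8) := log_ge_two (by linarith)
      linarith
    have hlogpos : 0 < Real.log (P + 8) := by
      have := log_ge_two (show (2 : ℝ) ≤ P by linarith)
      linarith
    have hgap' : 36 / 10 * K * Real.sqrt P ≤ Q - P := by
      refine le_trans ?_ hgap
      unfold bd
      have h10 : 9 / 10 ≤ Real.log P / Real.log (P + 8) := by
        rw [le_div_iff₀ hlogpos]
        exact hlog
      have h11 : 1200 * K * (Real.sqrt P / Real.log (P + 8)) * Real.log P / 300 =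
          4 * K * Real.sqrt P * (Real.log P / Real.log (P + 8)) := by
        field_simp
        ring
      rw [h11]
      have h12 : 0 ≤ 4 * (K : ℝ) * Real.sqrt P := by positivity
      calc 36 / 10 * K * Real.sqrt P = 4 * K * Real.sqrt P * (9 / 10) := by ring
        _ ≤ _ := mul_le_mul_of_nonneg_left h10 h12
    -- the first triangular number which is at least `P`
    have hex : ∃ m : ℕ, P ≤ (m : ℝ) * (m + 1) / 2 := by
      obtain ⟨m, hm⟩ := exists_nat_ge (P + 1)
      exact ⟨m, by nlinarith⟩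
    classical
    set m := Nat.find hex with hmdef
    have hm : P ≤ (m : ℝ) * (m + 1) / 2 := Nat.find_spec hex
    have hm0 : m ≠ 0 := by
      intro h0
      rw [h0] at hm
      norm_num at hm
      linarith
    obtain ⟨k, hk⟩ := Nat.exists_eq_succ_of_ne_zero hm0
    have hmk : (m : ℝ) = k + 1 := by
      rw [hk]
      push_cast
      ring
    have hmin : (k : ℝ) * (k + 1) / 2 < P := by
      have := Nat.find_min hex (m := k) (by omega)
      exact not_le.1 this
    have hk0 : (0 : ℝ) ≤ k := Nat.cast_nonneg k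
    -- `k < √(2 P)`
    have hsq : Real.sqrt P * Real.sqrt P = P := Real.mul_self_sqrt hP0.le
    have hs0 : 0 ≤ Real.sqrt P := Real.sqrt_nonneg P
    have hksq : (k : ℝ) < 1415 / 1000 * Real.sqrt P := by
      by_contra hcon
      push Not at hcon
      nlinarith
    have hsK : 100 * (K : ℝ) ≤ Real.sqrt P := by
      refine Real.le_sqrt_of_sq_le ?_
      linarith
    have hmN : N ≤ m := by
      by_contra hcon
      push Not at hcon
      have h13 : (m : ℝ) + 1 ≤ N := by exact_mod_cast hcon
      have h14 : (0 : ℝ) ≤ m := Nat.cast_nonneg m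
      nlinarith
    refine ⟨m + 1, by omega, ?_⟩
    intro i hi r hrp hcon
    obtain ⟨hc1, hc2⟩ := hcon
    have hiK : (i : ℝ) + 1 ≤ K := by exact_mod_cast hi
    have hi0 : (0 : ℝ) ≤ i := Nat.cast_nonneg i
    push_cast at hc1 hc2
    have h15 : P < f r := by
      refine lt_of_le_of_lt hm ?_
      refine lt_of_le_of_lt ?_ hc1
      have h14 : (0 : ℝ) ≤ m := Nat.cast_nonneg m
      nlinarith
    have h16 : f r < Q := by
      refine lt_of_le_of_lt hc2 ?_
      rw [hmk]
      have h17 : ((k : ℝ) + 1 + 1 + i) * ((k : ℝ) + 1 + 1 + i + 1) / 2 =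
          (k : ℝ) * (k + 1) / 2 + (k + 1) * (i + 2) + (i + 1) * (i + 2) / 2 := by
        ring
      rw [h17]
      have h18 : ((k : ℝ) + 1) * (i + 2) ≤ (1415 / 1000 * Real.sqrt P + 1) * (K + 1) := by
        refine mul_le_mul (by linarith) (by linarith) (by linarith) (by positivity)
      have h19 : ((i : ℝ) + 1) * (i + 2) / 2 ≤ K * (K + 1) / 2 := by
        have : ((i : ℝ) + 1) * (i + 2) ≤ K * (K + 1) :=
          mul_le_mul hiK (by linarith) (by linarith) (by linarith)
        linarith
      have h20 : (K : ℝ) * K ≤ K * Real.sqrt P / 100 := by nlinarith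
      have h22 : (22 : ℝ) ≤ Real.sqrt P := Real.le_sqrt_of_sq_le (by linarith)
      have h23 : (K : ℝ) + 1 ≤ 2 * K := by linarith
      have h24 : (1415 / 1000 * Real.sqrt P + 1) * ((K : ℝ) + 1) ≤
          (1415 / 1000 * Real.sqrt P + 1) * (2 * K) :=
        mul_le_mul_of_nonneg_left h23 (by positivity)
      have h25 : (K : ℝ) * 22 ≤ K * Real.sqrt P := mul_le_mul_of_nonneg_left h22 (by linarith)
      have h26 : (K : ℝ) * (K + 1) / 2 ≤ K * K := by nlinarith
      have h27 : 0 < (K : ℝ) * Real.sqrt P := mul_pos (by linarith) (by linarith)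
      have h28 : (1415 / 1000 * Real.sqrt P + 1) * (2 * (K : ℝ)) =
          2830 / 1000 * (K * Real.sqrt P) + 2 * K := by ring
      have h29 : 36 / 10 * (K : ℝ) * Real.sqrt P = 36 / 10 * (K * Real.sqrt P) := by ring
      rw [h29] at hgap'
      rw [h28] at h24
      have h30 : (K : ℝ) * K ≤ K * Real.sqrt P / 100 := h20
      linarith
    rcases hr r hrp with h | h
    · linarith
    · linarith

end Pool.Agent.Results.MP_c09310_nt.EmptyRows
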