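import Mathlib
import Pool.Agent.Lib_MP_c09310_ts.Cert
import Pool.Agent.Lib_MP_c09310_ts.Small

set_option autoImplicit false

namespace Pool.Agent.Results.MP_c09310_nt.TwiceASquare

open Pool.Agent.Lib_MP_c09310_ts

/-- Row `n` of the triangular arrangement: the integers `N` with `n (n - 1) / 2 < N ≤ n (n + 1) / 2`. -/
def row (n : ℕ) : Finset ℕ := Finset.Ioc (n * (n - 1) / 2) (n * (n + 1) / 2)

/-- `f` is completely multiplicative, with values `1` and `-1`, on the positive integers. -/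
structure Sign (f : ℕ → ℤ) : Prop where
  mul : ∀ a b : ℕ, 0 < a → 0 < b → f (a * b) = f a * f b
  val : ∀ a : ℕ, 0 < a → f a = 1 ∨ f a = -1

theorem mem_row {n N : ℕ} (hn : 1 ≤ n) : N ∈ row n ↔ InRow n N := by
  obtain ⟨k, rfl⟩ : ∃ k, n = k + 1 := ⟨n - 1, by omega⟩
  unfold row InRow
  rw [Finset.mem_Ioc, Nat.div_lt_iff_lt_mul two_pos, Nat.le_div_iff_mul_le two_pos, Nat.add_sub_cancel]
  have h1 : (k + 1) * (k + 1) = (k + 1) * k + (k + 1) := by ring
  have h2 : (k + 1) * (k + 1 + 1) = (k + 1) * (k + 1) + (k + 1) := by ring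
  rw [h2]
  constructor
  · rintro ⟨h3, h4⟩
    constructor <;> omega
  · rintro ⟨h3, h4⟩
    constructor <;> omega

theorem pos_of_mem {n N : ℕ} (h : N ∈ row n) : 0 < N :=
  lt_of_le_of_lt (Nat.zero_le _) (Finset.mem_Ioc.1 h).1

theorem Sign.one {f : ℕ → ℤ} (hf : Sign f) : f 1 = 1 := by
  have h1 := hf.mul 1 1 one_pos one_pos
  rw [one_mul] at h1
  rcases hf.val 1 one_pos with h | h
  · exact h
  · rw [h] at h1
    norm_num at h1

theorem Sign.prod {f : ℕ → ℤ} (hf : Sign f) (S : Finset ℕ) (h0 : ∀ N ∈ S, 0 < N) (h1 : ∀ N ∈ S, f N = 1) :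
    f (∏ N ∈ S, N) = 1 := by
  classical
  induction S using Finset.induction_on with
  | empty => rw [Finset.prod_empty]; exact hf.one
  | insert a S ha ih =>
    rw [Finset.prod_insert ha, hf.mul a _ (h0 a (Finset.mem_insert_self a S))
      (Finset.prod_pos fun N hN => h0 N (Finset.mem_insert_of_mem hN)), h1 a (Finset.mem_insert_self a S),
      ih (fun N hN => h0 N (Finset.mem_insert_of_mem hN)) (fun N hN => h1 N (Finset.mem_insert_of_mem hN)), one_mul]

/-- a set with product twice a square meets the set where `f = -1` -/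
theorem Sign.meets {f : ℕ → ℤ} (hf : Sign f) (h2 : f 2 = -1) {n : ℕ}
    (h : ∃ S ⊆ row n, ∃ m : ℕ, ∏ N ∈ S, N = 2 * m ^ 2) : ∃ N ∈ row n, f N = -1 := by
  obtain ⟨S, hS, m, hm⟩ := h
  by_contra hcon
  have h1 : ∀ N ∈ S, f N = 1 := by
    intro N hN
    rcases hf.val N (pos_of_mem (hS hN)) with h | h
    · exact h
    · exact absurd ⟨N, hS hN, h⟩ hcon
  have h3 := hf.prod S (fun N hN => pos_of_mem (hS hN)) h1
  have hpos : 0 < ∏ N ∈ S, N := Finset.prod_pos fun N hN => pos_of_mem (hS hN)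
  have hm0 : 0 < m := by
    rcases Nat.eq_zero_or_pos m with h | h
    · rw [hm, h] at hpos
      norm_num at hpos
    · exact h
  rw [hm, hf.mul 2 _ two_pos (pow_pos hm0 2), h2, pow_two, hf.mul m m hm0 hm0] at h3
  rcases hf.val m hm0 with h | h <;> rw [h] at h3 <;> norm_num at h3

theorem good {n : ℕ} (hn : 1 ≤ n) (h : n ∉ exc) : ∃ S ⊆ row n, ∃ m : ℕ, ∏ N ∈ S, N = 2 * m ^ 2 := by
  have hg : Good n := by
    rcases Nat.lt_or_ge n 66 with h1 | h1
    · exact good_of_lt hn h1 h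
    · exact good_of_le h1
  obtain ⟨S, hS, m, hm⟩ := hg.finset hn
  exact ⟨S, fun N hN => (mem_row hn).2 (hS N hN), m, hm⟩

/-- the sign function of a set of primes -/
def sgn (Q : List ℕ) (N : ℕ) : ℤ := (-1) ^ om Q N

theorem sgn_sign (Q : List ℕ) : Sign (sgn Q) where
  mul a b ha hb := by
    unfold sgn
    rw [om_mul Q ha hb, pow_add]
  val a _ := by
    unfold sgn
    exact neg_one_pow_eq_or ℤ _

theorem exceptional {n : ℕ} (hn : 1 ≤ n) (h : n ∈ exc) :
    ∃ f : ℕ → ℤ, Sign f ∧ f 2 = -1 ∧ ∀ N ∈ row n, f N = 1 := by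
  refine ⟨sgn (Qs n), sgn_sign _, ?_, ?_⟩
  · unfold sgn
    rw [om_two h, pow_one]
  · intro N hN
    unfold sgn
    have h1 := even_row h ((mem_row hn).1 hN)
    exact Even.neg_one_pow (Nat.even_iff.2 h1)

/-- the Liouville function -/
theorem liouville_sign : Sign fun N => (-1) ^ ArithmeticFunction.cardFactors N where
  mul a b ha hb := by
    rw [ArithmeticFunction.cardFactors_mul ha.ne' hb.ne', pow_add]
  val a _ := neg_one_pow_eq_or ℤ _

theorem odd_of_prime {p : ℕ} (hp : p.Prime) : Odd (ArithmeticFunction.cardFactors p) := by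
  rw [ArithmeticFunction.cardFactors_apply_prime hp]
  exact odd_one

/-- **Odd numbers of prime factors in the rows of the triangular arrangement.** -/
theorem result (n : ℕ) (hn : 1 ≤ n) :
    ((∃ S ⊆ row n, ∃ m : ℕ, ∏ N ∈ S, N = 2 * m ^ 2) ↔ n ∉ ({1, 3, 5, 15, 19, 21, 65} : Finset ℕ)) ∧
    ((∀ f : ℕ → ℤ, Sign f → f 2 = -1 → ∃ N ∈ row n, f N = -1) ↔ n ∉ ({1, 3, 5, 15, 19, 21, 65} : Finset ℕ)) ∧
    (2 ≤ n → ∃ N ∈ row n, Odd (ArithmeticFunction.cardFactors N)) := by
  have hexc : (({1, 3, 5, 15, 19, 21, 65} : Finset ℕ)) = exc := rfl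
  rw [hexc]
  have hall : (∀ f : ℕ → ℤ, Sign f → f 2 = -1 → ∃ N ∈ row n, f N = -1) ↔ n ∉ exc := by
    constructor
    · intro h1 h2
      obtain ⟨f, hf, hf2, hf1⟩ := exceptional hn h2
      obtain ⟨N, hN, hfN⟩ := h1 f hf hf2
      rw [hf1 N hN] at hfN
      norm_num at hfN
    · intro h1 f hf hf2
      exact hf.meets hf2 (good hn h1)
  refine ⟨⟨?_, good hn⟩, hall, ?_⟩
  · intro h1
    exact hall.1 fun f hf hf2 => hf.meets hf2 h1
  · intro h2
    by_cases h3 : n ∈ exc
    · have h4 : n = 1 ∨ n = 3 ∨ n = 5 ∨ n = 15 ∨ n = 19 ∨ n = 21 ∨ n = 65 := by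
        simpa [exc] using h3
      rcases h4 with rfl | rfl | rfl | rfl | rfl | rfl | rfl
      · omega
      · exact ⟨5, (mem_row (by norm_num)).2 ⟨by norm_num, by norm_num⟩, odd_of_prime (by norm_num)⟩
      · exact ⟨11, (mem_row (by norm_num)).2 ⟨by norm_num, by norm_num⟩, odd_of_prime (by norm_num)⟩
      · exact ⟨107, (mem_row (by norm_num)).2 ⟨by norm_num, by norm_num⟩, odd_of_prime (by norm_num)⟩
      · exact ⟨173, (mem_row (by norm_num)).2 ⟨by norm_num, by norm_num⟩, odd_of_prime (by norm_num)⟩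
      · exact ⟨211, (mem_row (by norm_num)).2 ⟨by norm_num, by norm_num⟩, odd_of_prime (by norm_num)⟩
      · exact ⟨2081, (mem_row (by norm_num)).2 ⟨by norm_num, by norm_num⟩, odd_of_prime (by norm_num)⟩
    · obtain ⟨N, hN, hfN⟩ := hall.2 h3 _ liouville_sign (by
        show (-1 : ℤ) ^ ArithmeticFunction.cardFactors 2 = -1
        rw [ArithmeticFunction.cardFactors_apply_prime Nat.prime_two, pow_one])
      refine ⟨N, hN, ?_⟩
      rw [← Nat.not_even_iff_odd]
      intro h5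
      have h6 : (-1 : ℤ) ^ ArithmeticFunction.cardFactors N = -1 := hfN
      rw [h5.neg_one_pow] at h6
      norm_num at h6

end Pool.Agent.Results.MP_c09310_nt.TwiceASquare
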